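import Pool.Agent.Lib.MP_76ba2b_nt.NdF

set_option autoImplicit false

namespace Pool.Agent.Results.MP_76ba2b_nt.NaturalDensity

open Pool.Agent.Lib.MP_76ba2b_nt

/-- For every positive integer `a` not divisible by `3`, the set of positive integers that iterate
to `a` under the `3x+1` function has a natural density: `π_a(x) / x` converges as the real number
`x` tends to infinity, and the limit is at least `c / a` for an absolute constant `c > 0`. -/
theorem result : ∃ c : ℝ, 0 < c ∧ ∀ a : ℕ, 0 < a → ¬ 3 ∣ a → ∃ d : ℝ, c / a ≤ d ∧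
    Filter.Tendsto (fun x : ℝ =>
      (Set.ncard {n : ℕ | 0 < n ∧ (n : ℝ) ≤ x ∧ ∃ k : ℕ, T^[k] n = a} : ℝ) / x)
      Filter.atTop (nhds d) :=
  density_main

end Pool.Agent.Results.MP_76ba2b_nt.NaturalDensity
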