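import Pool.Agent.Lib.MP_76ba2b_nt.Sharp

set_option autoImplicit false

namespace Pool.Agent.Results.MP_76ba2b_nt.SharpOrder

open Pool.Agent.Lib.MP_76ba2b_nt

/-- For most `a` the predecessor set of `a` under the `3x+1` function has upper density
`O(1 / a)`: the number of `a` in `[X, 2 X)` with `π_a(x) > t x / a` for arbitrarily large `x` is at
most `C X (log t / t + X ^ (-δ))`. -/
theorem result : ∃ C δ : ℝ, 0 < δ ∧ ∀ X : ℕ, 2 ≤ X → ∀ t : ℝ, 2 ≤ t →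
    (Set.ncard {a : ℕ | X ≤ a ∧ a < 2 * X ∧ ∃ᶠ x : ℝ in Filter.atTop, t / a * x <
      (Set.ncard {n : ℕ | 0 < n ∧ (n : ℝ) ≤ x ∧ ∃ k : ℕ, T^[k] n = a} : ℝ)} : ℝ) ≤
      C * X * (Real.log t / t + (X : ℝ) ^ (-δ)) :=
  Sh.sharp_main

end Pool.Agent.Results.MP_76ba2b_nt.SharpOrder
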