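import Pool.Agent.Lib.MP_76ba2b_nt.UMain

set_option autoImplicit false

namespace Pool.Agent.Results.MP_76ba2b_nt.UniformDensity

open Pool.Agent.Lib.MP_76ba2b_nt

/-- There is an absolute constant `c > 0` such that for every positive integer `a` not
divisible by `3` and every real `x ≥ a`, at least `c x / a` integers of `[x, 2x)` iterate to `a`
under the `3x+1` function. -/
theorem result : ∃ c : ℝ, 0 < c ∧ ∀ a : ℕ, 0 < a → ¬ 3 ∣ a → ∀ x : ℝ, (a : ℝ) ≤ x →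
    c * (x / a) ≤ (Set.ncard {m : ℕ | x ≤ (m : ℝ) ∧ (m : ℝ) < 2 * x ∧
      ∃ k : ℕ, T^[k] m = a} : ℝ) := by
  obtain ⟨c, C, hc, h⟩ := mainU
  refine ⟨c, hc, fun a ha h3 x hx => (h a ha h3 x hx).trans (Nat.cast_le.2 ?_)⟩
  refine Set.ncard_le_ncard (fun m hm => ⟨hm.1, hm.2.1, hm.2.2.imp fun k hk => hk.2⟩) ?_
  refine (Set.finite_le_nat ⌊2 * x⌋₊).subset fun m hm => ?_
  exact Nat.le_floor hm.2.1.le

end Pool.Agent.Results.MP_76ba2b_nt.UniformDensity
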